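import Pool.Agent.W149.VD.Graph

set_option autoImplicit false
open N6ef48c04

namespace Pool.Agent.Results.MP_964892_co.VertexCover

/-!
The cop number and the vertex cover number: `c(G) ≤ 115 √τ (log τ + 1) + 1` for every connected
graph with a vertex cover of `τ` vertices. In particular Meyniel's bound `c(G) = O(√n)` holds for
all connected graphs whose vertex cover number is at most `n / (log n + 1)²`.

Proof idea. The entropy method of the starting files (`H594R2.Mey2`) is carried out for a game with
abstract ends. For a vertex cover `A` there are two ends for every `z ∈ A`: the robber is at `z`,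
or he is outside `A` next to `z`. A cop who imitates the robber of the game with exchanged roles
stands at `z`, or next to `z`. So `O(√τ log τ)` cops force a position in which the robber is caught
or is outside `A` and all his neighbours are attacked; one more cop walks to him. The clock of the
game does not run while the robber waits outside `A`, so only his positions in `A` matter.
-/

/-- Let `G` be a finite connected graph with a vertex cover `A`. Then
`c(G) ≤ 115 √|A| (log |A| + 1) + 1`, and `c(G) ≤ 116 √n` if `|A| (log |A| + 1)² ≤ n`. -/
theorem result {V : Type*} [Fintype V] (G : SimpleGraph V) (hG : G.Connected) (A : Finset V)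
    (hA : ∀ x y, G.Adj x y → x ∈ A ∨ y ∈ A) :
    (copNumber G : ℝ) ≤ 115 * √(A.card) * (Real.log (A.card) + 1) + 1 ∧
      ((A.card : ℝ) * (Real.log (A.card) + 1) ^ 2 ≤ Fintype.card V →
        (copNumber G : ℝ) ≤ 116 * √(Fintype.card V)) := by
  have h1 := Pool.Agent.W149.VD.cover_bound G hG A hA
  refine ⟨h1, fun h => ?_⟩
  have : Nonempty V := hG.nonempty
  have hn1 : (1 : ℝ) ≤ Fintype.card V := by exact_mod_cast Fintype.card_pos
  have hs1 : 1 ≤ √(Fintype.card V : ℝ) := Real.one_le_sqrt.2 hn1
  have hl : 0 ≤ Real.log (A.card : ℝ) := Real.log_natCast_nonneg _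
  have h2 : √(A.card : ℝ) * (Real.log (A.card) + 1) ≤ √(Fintype.card V : ℝ) := by
    apply Real.le_sqrt_of_sq_le
    rw [mul_pow, Real.sq_sqrt (Nat.cast_nonneg _)]
    exact h
  nlinarith

end Pool.Agent.Results.MP_964892_co.VertexCover
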